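import Pool.Agent.H42.TR.Up
import Pool.Agent.H42.GR.Count

/-!
The construction for `s = n`: cells, lines and a Vandermonde argument.
-/

namespace Pool.Agent.H42.TR

open MvPolynomial
open Pool.Agent.H42.GR (blk blk_e blk_eq_some card_compl_blk)

variable {n : ℕ} {c : Fin n → ℕ} {α : Fin n → Type} [∀ i, Fintype (α i)]
  [∀ i, DecidableEq (α i)]

/-- Cells: a permutation of the blocks and an element of every block. -/
abbrev PX (n : ℕ) (c : Fin n → ℕ) : Type := Equiv.Perm (Fin n) × ((i : Fin n) → Fin (c i))

/-- The word of a cell. -/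
def cell (e : (i : Fin n) → (Fin n × Fin (c i)) ↪ α i) (p : PX n c) : (i : Fin n) → α i :=
  fun i => e i (p.1 i, p.2 i)

/-- Changing one coordinate. -/
def upd (p : PX n c) (i : Fin n) (a : Fin (c i)) : PX n c := (p.1, Function.update p.2 i a)

omit [∀ i, Fintype (α i)] [∀ i, DecidableEq (α i)] in
theorem cell_upd (e : (i : Fin n) → (Fin n × Fin (c i)) ↪ α i) (p : PX n c) (i : Fin n)
    (a : Fin (c i)) : cell e (upd p i a) = Function.update (cell e p) i (e i (p.1 i, a)) := by
  funext l
  unfold cell upd
  by_cases hl : l = i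
  · subst hl
    simp
  · simp [Function.update_of_ne hl]

/-- A word that involves all `n` blocks is a cell. -/
theorem eq_cell_of_meets (e : (i : Fin n) → (Fin n × Fin (c i)) ↪ α i) {w : (i : Fin n) → α i}
    (hm : Meets (fun i => blk (e i)) w) : ∃ p, w = cell e p := by
  classical
  choose f hf using hm
  have hinj : Function.Injective f := by
    intro j j' h
    have h1 := hf j
    rw [h, hf j'] at h1
    exact (Option.some.inj h1).symm
  have hbij : Function.Bijective f := Finite.injective_iff_bijective.mp hinj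
  set σ := (Equiv.ofBijective f hbij).symm with hσ
  have h1 : ∀ i, blk (e i) (w i) = some (σ i) := by
    intro i
    have h2 : f (σ i) = i := (Equiv.ofBijective f hbij).apply_symm_apply i
    have h3 := hf (σ i)
    have h4 : ∀ i', i' = i → blk (e i') (w i') = some (σ i) → blk (e i) (w i) = some (σ i) := by
      rintro i' rfl h
      exact h
    exact h4 _ h2 h3
  have h5 : ∀ i, ∃ a, e i (σ i, a) = w i := fun i => (blk_eq_some (e i)).mp (h1 i)
  choose x hx using h5
  exact ⟨(σ, x), funext fun i => (hx i).symm⟩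

omit [∀ i, Fintype (α i)] [∀ i, DecidableEq (α i)] in
theorem cell_injective (e : (i : Fin n) → (Fin n × Fin (c i)) ↪ α i) :
    Function.Injective (cell e) := by
  rintro ⟨π, x⟩ ⟨π', x'⟩ h
  have h1 : ∀ i, (π i, x i) = (π' i, x' i) := fun i => (e i).injective (congrFun h i)
  rw [Prod.mk.injEq]
  exact ⟨Equiv.ext fun i => (Prod.ext_iff.mp (h1 i)).1, funext fun i => (Prod.ext_iff.mp (h1 i)).2⟩

/-- The base tensors built from coefficients `q`. -/
noncomputable def Q0 (e : (i : Fin n) → (Fin n × Fin (c i)) ↪ α i) (z0 : (i : Fin n) → Fin (c i))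
    (q : (i : Fin n) → α i → PX n c → ℂ) (j : Fin n) : Tens α :=
  ∑ i, ∑ z ∈ Finset.univ.filter (fun z => blk (e i) z = none),
    ∑ p ∈ Finset.univ.filter (fun p : PX n c => p.2 i = z0 i ∧ p.1 i = j),
      q i z p • (Pi.single (Function.update (cell e p) i z) (1 : ℂ) : Tens α)

theorem Q0_apply (e : (i : Fin n) → (Fin n × Fin (c i)) ↪ α i) (z0 : (i : Fin n) → Fin (c i))
    (q : (i : Fin n) → α i → PX n c → ℂ) (j : Fin n) (u : (i : Fin n) → α i) :
    Q0 e z0 q j u = ∑ i, ∑ z ∈ Finset.univ.filter (fun z => blk (e i) z = none),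
    ∑ p ∈ Finset.univ.filter (fun p : PX n c => p.2 i = z0 i ∧ p.1 i = j),
      q i z p * (if u = Function.update (cell e p) i z then 1 else 0) := by
  unfold Q0
  rw [Finset.sum_apply]
  refine Finset.sum_congr rfl fun i _ => ?_
  rw [Finset.sum_apply]
  refine Finset.sum_congr rfl fun z _ => ?_
  rw [Finset.sum_apply]
  refine Finset.sum_congr rfl fun p _ => ?_
  rw [Pi.smul_apply, Pi.single_apply, smul_eq_mul]

theorem Q0_support (e : (i : Fin n) → (Fin n × Fin (c i)) ↪ α i) (z0 : (i : Fin n) → Fin (c i))
    (q : (i : Fin n) → α i → PX n c → ℂ) (j : Fin n) (u : (i : Fin n) → α i)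
    (hu : Q0 e z0 q j u ≠ 0) (l : Fin n) : blk (e l) (u l) ≠ some j := by
  rw [Q0_apply] at hu
  obtain ⟨i, _, hi⟩ := Finset.exists_ne_zero_of_sum_ne_zero hu
  obtain ⟨z, hz, hi⟩ := Finset.exists_ne_zero_of_sum_ne_zero hi
  obtain ⟨p, hp, hi⟩ := Finset.exists_ne_zero_of_sum_ne_zero hi
  rw [Finset.mem_filter] at hz hp
  have h1 : u = Function.update (cell e p) i z := by
    by_contra h
    rw [if_neg h, mul_zero] at hi
    exact hi rfl
  rw [h1]
  by_cases hl : l = i
  · subst hl
    rw [Function.update_self, hz.2]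
    simp
  · rw [Function.update_of_ne hl]
    unfold cell
    rw [blk_e]
    intro h
    have h2 := Option.some.inj h
    rw [← hp.2.2] at h2
    exact hl (p.1.injective h2)

theorem Q0_line (e : (i : Fin n) → (Fin n × Fin (c i)) ↪ α i) (z0 : (i : Fin n) → Fin (c i))
    (q : (i : Fin n) → α i → PX n c → ℂ) (j i : Fin n) (z : α i) (hz : blk (e i) z = none)
    (a : Fin (c i)) :
    (fun w => if w i = e i (j, a) then Q0 e z0 q j (Function.update w i z) else 0 : Tens α) =
      ∑ p ∈ Finset.univ.filter (fun p : PX n c => p.2 i = z0 i ∧ p.1 i = j),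
        q i z p • (Pi.single (cell e (upd p i a)) (1 : ℂ) : Tens α) := by
  funext w
  rw [Finset.sum_apply]
  have hcell : ∀ l (p : PX n c), blk (e l) (cell e p l) ≠ none := by
    intro l p
    unfold cell
    rw [blk_e]
    simp
  by_cases hw : w i = e i (j, a)
  · rw [if_pos hw, Q0_apply, Finset.sum_eq_single i]
    · rw [Finset.sum_eq_single z]
      · refine Finset.sum_congr rfl fun p hp => ?_
        rw [Finset.mem_filter] at hp
        rw [Pi.smul_apply, Pi.single_apply, smul_eq_mul]
        congr 1
        have : (Function.update w i z = Function.update (cell e p) i z) ↔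
            w = cell e (upd p i a) := by
          rw [cell_upd]
          constructor
          · intro h
            funext l
            by_cases hl : l = i
            · subst hl
              rw [Function.update_self, hw, hp.2.2]
            · have := congrFun h l
              rw [Function.update_of_ne hl, Function.update_of_ne hl] at this
              rw [Function.update_of_ne hl, this]
          · intro h
            rw [h, Function.update_idem]
        by_cases h : w = cell e (upd p i a)
        · rw [if_pos h, if_pos (this.mpr h)]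
        · rw [if_neg h, if_neg (fun h' => h (this.mp h'))]
      · intro z' _ hz'
        refine Finset.sum_eq_zero fun p _ => ?_
        rw [if_neg, mul_zero]
        intro h
        have := congrFun h i
        rw [Function.update_self, Function.update_self] at this
        exact hz' this.symm
      · intro h
        exfalso
        apply h
        rw [Finset.mem_filter]
        exact ⟨Finset.mem_univ _, hz⟩
    · intro i' _ hi'
      refine Finset.sum_eq_zero fun z' _ => Finset.sum_eq_zero fun p _ => ?_
      rw [if_neg, mul_zero]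
      intro h
      have := congrFun h i
      rw [Function.update_self, Function.update_of_ne (Ne.symm hi')] at this
      apply hcell i p
      rw [← this]
      exact hz
    · simp
  · rw [if_neg hw]
    symm
    refine Finset.sum_eq_zero fun p hp => ?_
    rw [Finset.mem_filter] at hp
    rw [Pi.smul_apply, Pi.single_apply, if_neg, smul_zero]
    intro h
    apply hw
    rw [h, cell_upd, Function.update_self, hp.2.2]

/-- All cells lie in the subspace. -/
theorem cells_mem (e : (i : Fin n) → (Fin n × Fin (c i)) ↪ α i) (z0 : (i : Fin n) → Fin (c i))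
    (D : Submodule ℂ (Tens α)) (i₀ : Fin n) (f : ℕ) (lev : Equiv.Perm (Fin n) → Fin n)
    (hlev : ∀ π, lev π ≠ i₀) (S : Finset (PX n c)) (t : PX n c → ℂ)
    (ht : Function.Injective t)
    (hline : ∀ p : PX n c, upd (upd p (lev p.1) (z0 _)) i₀ (z0 i₀) ∈ S →
      (Pi.single (cell e p) (1 : ℂ) : Tens α) ∈ D)
    (hfill : ∀ (j : Fin n) (a : Fin (c i₀)), ∀ b < f,
      ∑ p ∈ Finset.univ.filter (fun p : PX n c => p.2 i₀ = z0 i₀ ∧ p.1 i₀ = j),
        (t p ^ b) • (Pi.single (cell e (upd p i₀ a)) (1 : ℂ) : Tens α) ∈ D)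
    (hcount : ∀ j, (Finset.univ.filter (fun p : PX n c => (p.2 i₀ = z0 i₀ ∧ p.1 i₀ = j) ∧
      upd p (lev p.1) (z0 _) ∉ S)).card ≤ f)
    (p : PX n c) : (Pi.single (cell e p) (1 : ℂ) : Tens α) ∈ D := by
  classical
  by_cases hgood : upd (upd p (lev p.1) (z0 _)) i₀ (z0 i₀) ∈ S
  · exact hline p hgood
  · set j := p.1 i₀ with hj
    set a := p.2 i₀ with ha
    set Z := Finset.univ.filter (fun p : PX n c => p.2 i₀ = z0 i₀ ∧ p.1 i₀ = j) with hZ
    set N := Finset.univ.filter (fun p : PX n c => (p.2 i₀ = z0 i₀ ∧ p.1 i₀ = j) ∧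
      upd p (lev p.1) (z0 _) ∉ S) with hN
    have hcomm : ∀ p' : PX n c, p'.2 i₀ = z0 i₀ → ∀ a' : Fin (c i₀),
        upd (upd (upd p' i₀ a') (lev p'.1) (z0 _)) i₀ (z0 i₀) = upd p' (lev p'.1) (z0 _) := by
      intro p' hp' a'
      unfold upd
      rw [Prod.mk.injEq]
      refine ⟨rfl, ?_⟩
      simp only
      rw [Function.update_comm (hlev p'.1), Function.update_idem, ← hp', Function.update_eq_self]
    have lin : ∀ L : Polynomial ℂ, L.natDegree < f →
        ∑ p' ∈ Z, (L.eval (t p')) • (Pi.single (cell e (upd p' i₀ a)) (1 : ℂ) : Tens α) ∈ D := by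
      intro L hL
      have h3 : ∑ p' ∈ Z, (L.eval (t p')) •
          (Pi.single (cell e (upd p' i₀ a)) (1 : ℂ) : Tens α) =
          ∑ b ∈ Finset.range f, (L.coeff b) •
            ∑ p' ∈ Z, (t p' ^ b) • (Pi.single (cell e (upd p' i₀ a)) (1 : ℂ) : Tens α) := by
        simp only [Finset.smul_sum]
        rw [Finset.sum_comm]
        refine Finset.sum_congr rfl fun p' _ => ?_
        rw [Polynomial.eval_eq_sum_range' hL, Finset.sum_smul]
        refine Finset.sum_congr rfl fun b _ => ?_
        rw [smul_smul]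
      rw [h3]
      exact Submodule.sum_mem _ fun b hb =>
        Submodule.smul_mem _ _ (hfill j a b (Finset.mem_range.mp hb))
    set p₀ := upd p i₀ (z0 i₀) with hp₀
    have hp₀a : upd p₀ i₀ a = p := by
      rw [hp₀]
      unfold upd
      simp only
      rw [Function.update_idem, ha, Function.update_eq_self]
    have hp₀z : p₀.2 i₀ = z0 i₀ := by
      rw [hp₀]
      unfold upd
      simp
    have hp₀N : p₀ ∈ N := by
      rw [hN, Finset.mem_filter]
      refine ⟨Finset.mem_univ _, ⟨hp₀z, rfl⟩, ?_⟩
      have h1 := hcomm p₀ hp₀z a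
      rw [hp₀a] at h1
      rw [← h1]
      exact hgood
    have hdeg : (Lagrange.basis N t p₀).natDegree < f := by
      rw [Lagrange.natDegree_basis (ht.injOn) hp₀N]
      have h4 : 0 < N.card := Finset.card_pos.mpr ⟨_, hp₀N⟩
      have h5 : N.card ≤ f := hcount j
      omega
    have h6 := lin (Lagrange.basis N t p₀) hdeg
    have hsub : N ⊆ Z := by
      intro p' hp'
      rw [hN, Finset.mem_filter] at hp'
      rw [hZ, Finset.mem_filter]
      exact ⟨hp'.1, hp'.2.1⟩
    rw [← Finset.sum_sdiff hsub] at h6
    have h7 : ∑ p' ∈ N, ((Lagrange.basis N t p₀).eval (t p')) •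
        (Pi.single (cell e (upd p' i₀ a)) (1 : ℂ) : Tens α) = Pi.single (cell e p) 1 := by
      rw [Finset.sum_eq_single p₀]
      · rw [Lagrange.eval_basis_self (ht.injOn) hp₀N, one_smul, hp₀a]
      · intro p' hp' hne
        rw [Lagrange.eval_basis_of_ne (Ne.symm hne) hp', zero_smul]
      · intro h
        exact absurd hp₀N h
    have h8 : ∑ p' ∈ Z \ N, ((Lagrange.basis N t p₀).eval (t p')) •
        (Pi.single (cell e (upd p' i₀ a)) (1 : ℂ) : Tens α) ∈ D := by
      refine Submodule.sum_mem _ fun p' hp' => Submodule.smul_mem _ _ ?_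
      rw [Finset.mem_sdiff, hZ, hN, Finset.mem_filter, Finset.mem_filter] at hp'
      have h9 : upd p' (lev p'.1) (z0 _) ∈ S := by
        by_contra h10
        exact hp'.2 ⟨Finset.mem_univ _, hp'.1.2, h10⟩
      apply hline
      have h11 := hcomm p' hp'.1.2.1 a
      change upd (upd (upd p' i₀ a) (lev p'.1) (z0 _)) i₀ (z0 i₀) ∈ S
      rw [h11]
      exact h9
    rw [h7] at h6
    have := Submodule.sub_mem _ h6 h8
    rwa [add_sub_cancel_left] at this

end Pool.Agent.H42.TR
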