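import Pool.Agent.H42.TR.Comb

/-!
Counting: parameters, words involving all blocks, permutations with two prescribed values.
-/

namespace Pool.Agent.H42.TR

open MvPolynomial
open Pool.Agent.H42.GR (blk blk_e blk_eq_some card_compl_blk card_pairs_le exists_emb)

/-- Permutations with two prescribed values. -/
theorem card_perm_two {n : ℕ} {a b a' b' : Fin n} (hab : a ≠ b) (hab' : a' ≠ b') :
    (Finset.univ.filter (fun π : Equiv.Perm (Fin n) => π a = a' ∧ π b = b')).card =
      (n - 2).factorial := by
  classical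
  -- a permutation moving `a', b'` to `a, b`
  obtain ⟨τ, hτa, hτb⟩ : ∃ τ : Equiv.Perm (Fin n), τ a' = a ∧ τ b' = b := by
    set d := Equiv.swap a' a b' with hd
    have hda : d ≠ a := by
      intro h
      have h2 : Equiv.swap a' a a' = a := Equiv.swap_apply_left _ _
      rw [← h2, hd] at h
      exact hab' ((Equiv.swap a' a).injective h).symm
    refine ⟨Equiv.swap d b * Equiv.swap a' a, ?_, ?_⟩
    · rw [Equiv.Perm.mul_apply, Equiv.swap_apply_left,
        Equiv.swap_apply_of_ne_of_ne (Ne.symm hda) hab]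
    · rw [Equiv.Perm.mul_apply, ← hd, Equiv.swap_apply_left]
  set p : Fin n → Prop := fun x => x ≠ a ∧ x ≠ b with hp
  have h1 : Fintype.card {f : Equiv.Perm (Fin n) // ∀ x, ¬ p x → f x = x} =
      (n - 2).factorial := by
    rw [← Fintype.card_congr (Equiv.Perm.subtypeEquivSubtypePerm p), Fintype.card_perm]
    congr 1
    rw [Fintype.card_subtype]
    have h2 : (Finset.univ.filter fun x => p x) = Finset.univ \ {a, b} := by
      ext x
      simp [hp]
    rw [h2, Finset.card_sdiff_of_subset (Finset.subset_univ _), Finset.card_univ,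
      Fintype.card_fin, Finset.card_pair hab]
  rw [← h1, ← Fintype.card_subtype]
  refine Fintype.card_congr ⟨fun π => ⟨τ * π.1, ?_⟩, fun f => ⟨τ⁻¹ * f.1, ?_⟩, ?_, ?_⟩
  · intro x hx
    simp only [hp, not_and_or, not_not] at hx
    rcases hx with rfl | rfl
    · rw [Equiv.Perm.mul_apply, π.2.1, hτa]
    · rw [Equiv.Perm.mul_apply, π.2.2, hτb]
  · constructor
    · rw [Equiv.Perm.mul_apply, f.2 a (by simp [hp]), Equiv.Perm.inv_eq_iff_eq, hτa]
    · rw [Equiv.Perm.mul_apply, f.2 b (by simp [hp]), Equiv.Perm.inv_eq_iff_eq, hτb]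
  · intro π
    apply Subtype.ext
    simp
  · intro f
    apply Subtype.ext
    simp

variable {n : ℕ} {α : Fin n → Type} [∀ i, Fintype (α i)] [∀ i, DecidableEq (α i)]

open Classical in
/-- The final form of the lower bound. -/
theorem not_containsOpen_of_count {s : ℕ} {c : Fin n → ℕ}
    (e : (i : Fin n) → (Fin s × Fin (c i)) ↪ α i) (N : ℕ)
    (hN : N ≤ (Finset.univ.filter (fun u : (i : Fin n) → α i =>
      Meets (fun i => blk (e i)) u)).card)
    (hlt : ∑ i, s * c i * (Fintype.card (α i) - c i) < N) :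
    ¬ ContainsOpen α {T | RankLE α (fun i => Fintype.card (α i) - c i) s T} := by
  apply not_containsOpen (fun i => blk (e i)) (fun i j => card_compl_blk (e i) j)
  have h1 : ∑ i, Fintype.card {p : α i × α i //
      blk (e i) p.2 ≠ none ∧ blk (e i) p.1 ≠ blk (e i) p.2} ≤
      ∑ i, s * c i * (Fintype.card (α i) - c i) :=
    Finset.sum_le_sum fun i _ => card_pairs_le (e i)
  have h2 := Finset.card_filter_add_card_filter_not
    (s := (Finset.univ : Finset ((i : Fin n) → α i))) (fun u => Meets (fun i => blk (e i)) u)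
  have h3 : Fintype.card {u : (i : Fin n) → α i // ¬ Meets (fun i => blk (e i)) u} =
      (Finset.univ.filter (fun u : (i : Fin n) → α i =>
        ¬ Meets (fun i => blk (e i)) u)).card := by
    apply Fintype.card_of_subtype
    intro u
    rw [Finset.mem_filter]
    exact ⟨fun h => h.2, fun h => ⟨Finset.mem_univ _, h⟩⟩
  have h4 : Fintype.card (Par (fun i => blk (e i))) =
      (∑ i, Fintype.card {p : α i × α i //
        blk (e i) p.2 ≠ none ∧ blk (e i) p.1 ≠ blk (e i) p.2}) +
      Fintype.card {u : (i : Fin n) → α i // ¬ Meets (fun i => blk (e i)) u} := by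
    rw [Fintype.card_sum, Fintype.card_sigma]
  rw [h4, h3]
  rw [Finset.card_univ] at h2
  omega

open Classical in
theorem count_full {c : Fin n → ℕ} (e : (i : Fin n) → (Fin n × Fin (c i)) ↪ α i) :
    n.factorial * ∏ i, c i ≤ (Finset.univ.filter (fun u : (i : Fin n) → α i =>
      Meets (fun i => blk (e i)) u)).card := by
  have h1 : (Finset.univ.image (cell e)).card = n.factorial * ∏ i, c i := by
    rw [Finset.card_image_of_injective _ (cell_injective e), Finset.card_univ,
      Fintype.card_prod, Fintype.card_perm, Fintype.card_fin, Fintype.card_pi]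
    congr 1
    exact Finset.prod_congr rfl fun i _ => Fintype.card_fin _
  rw [← h1]
  apply Finset.card_le_card
  intro u hu
  rw [Finset.mem_image] at hu
  obtain ⟨p, _, rfl⟩ := hu
  rw [Finset.mem_filter]
  refine ⟨Finset.mem_univ _, fun j => ⟨p.1.symm j, ?_⟩⟩
  unfold cell
  simp only
  rw [blk_e, Equiv.apply_symm_apply]

/-- The number of elements outside all blocks. -/
theorem card_free {σ : Type} [Fintype σ] [DecidableEq σ] {s c : ℕ} (e : Fin s × Fin c ↪ σ) :
    Fintype.card {y : σ // blk e y = none} = Fintype.card σ - s * c := by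
  classical
  rw [Fintype.card_subtype]
  have h1 : Finset.univ.filter (fun z => blk e z = none) = Finset.univ \ Finset.univ.map e := by
    ext z
    rw [Finset.mem_filter, Finset.mem_sdiff, Finset.mem_map]
    constructor
    · rintro ⟨_, hz⟩
      refine ⟨Finset.mem_univ _, ?_⟩
      rintro ⟨⟨j, x⟩, _, rfl⟩
      rw [blk_e] at hz
      exact Option.some_ne_none _ hz
    · rintro ⟨_, hz⟩
      refine ⟨Finset.mem_univ _, ?_⟩
      by_contra h
      obtain ⟨j, hj⟩ := Option.ne_none_iff_exists'.mp h
      obtain ⟨x, hx⟩ := (blk_eq_some e).mp hj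
      exact hz ⟨(j, x), Finset.mem_univ _, hx⟩
  rw [h1, Finset.card_sdiff_of_subset (Finset.subset_univ _), Finset.card_map,
    Finset.card_univ, Finset.card_univ, Fintype.card_prod, Fintype.card_fin, Fintype.card_fin]

open Classical in
/-- The count for `n - 1` blocks of size `c`. -/
theorem count_pred {N c : ℕ} {α : Fin (N + 1) → Type} [∀ i, Fintype (α i)]
    [∀ i, DecidableEq (α i)] (e : (i : Fin (N + 1)) → (Fin N × Fin c) ↪ α i) :
    N.factorial * c ^ N * ∑ i, (Fintype.card (α i) - N * c) ≤
      (Finset.univ.filter (fun u : (i : Fin (N + 1)) → α i =>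
        Meets (fun i => blk (e i)) u)).card := by
  set F : (Σ i : Fin (N + 1), {y : α i // blk (e i) y = none} ×
    (Equiv.Perm (Fin N) × (Fin N → Fin c))) → ((i : Fin (N + 1)) → α i) := fun y =>
    y.1.insertNth y.2.1.1 (fun k => e (y.1.succAbove k) (y.2.2.1 k, y.2.2.2 k)) with hF
  have hFs : ∀ y, F y y.1 = y.2.1.1 := by
    intro y
    simp only [hF]
    rw [Fin.insertNth_apply_same]
  have hFk : ∀ y k, F y (y.1.succAbove k) =
      e (y.1.succAbove k) (y.2.2.1 k, y.2.2.2 k) := by
    intro y k
    simp only [hF]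
    rw [Fin.insertNth_apply_succAbove]
  have hinj : Function.Injective F := by
    intro y y' h
    have h1 : y.1 = y'.1 := by
      by_contra hne
      obtain ⟨k, hk⟩ := Fin.exists_succAbove_eq (Ne.symm hne : y'.1 ≠ y.1)
      have h2 := hFk y k
      rw [hk, h, hFs y'] at h2
      have h3 := y'.2.1.2
      rw [h2, blk_e] at h3
      exact Option.some_ne_none _ h3
    obtain ⟨i, ⟨y1, y2⟩, π, x⟩ := y
    obtain ⟨i', ⟨y1', y2'⟩, π', x'⟩ := y'
    simp only at h1
    subst h1
    have h4 : y1 = y1' := by
      have h5 := hFs ⟨i, ⟨y1, y2⟩, π, x⟩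
      have h6 := hFs ⟨i, ⟨y1', y2'⟩, π', x'⟩
      rw [h] at h5
      exact h5.symm.trans h6
    have h7 : ∀ k, (π k, x k) = (π' k, x' k) := by
      intro k
      have h5 := hFk ⟨i, ⟨y1, y2⟩, π, x⟩ k
      have h6 := hFk ⟨i, ⟨y1', y2'⟩, π', x'⟩ k
      rw [h] at h5
      exact (e (i.succAbove k)).injective (h5.symm.trans h6)
    have h8 : π = π' := Equiv.ext fun k => (Prod.ext_iff.mp (h7 k)).1
    have h9 : x = x' := funext fun k => (Prod.ext_iff.mp (h7 k)).2
    subst h4 h8 h9
    rfl
  have hcard : (Finset.univ.image F).card =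
      N.factorial * c ^ N * ∑ i, (Fintype.card (α i) - N * c) := by
    rw [Finset.card_image_of_injective _ hinj, Finset.card_univ, Fintype.card_sigma,
      Finset.mul_sum]
    refine Finset.sum_congr rfl fun i _ => ?_
    rw [Fintype.card_prod, card_free, Fintype.card_prod, Fintype.card_perm, Fintype.card_fin,
      Fintype.card_fun, Fintype.card_fin, Fintype.card_fin]
    ring
  rw [← hcard]
  apply Finset.card_le_card
  intro u hu
  rw [Finset.mem_image] at hu
  obtain ⟨y, _, rfl⟩ := hu
  rw [Finset.mem_filter]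
  refine ⟨Finset.mem_univ _, fun j => ⟨y.1.succAbove (y.2.2.1.symm j), ?_⟩⟩
  beta_reduce
  rw [hFk, blk_e, Equiv.apply_symm_apply]

end Pool.Agent.H42.TR
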