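import Mathlib

/-!
Definitions: tensors as arrays of coordinates, the cone `Sub_{r_1,...,r_n}`, rank with respect to
it, nonempty Zariski open subsets, generic rank.  The space `V_i` is the coordinate space
`Fin (m i) → ℂ` of dimension `m i`, and `V_1 ⊗ ... ⊗ V_n` is the space of arrays
`((i : Fin n) → Fin (m i)) → ℂ`.
-/

namespace Pool.Agent.H42.TR

open MvPolynomial

/-- The tensor space: arrays indexed by the choices of one index in every factor. -/
abbrev Tens {ι : Type} (α : ι → Type) : Type := ((i : ι) → α i) → ℂ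

/-- The pure tensor `⊗ v_i`, with entries `∏ v_i(w_i)`. -/
def pureT {ι : Type} [Fintype ι] {α : ι → Type} (v : (i : ι) → α i → ℂ) : Tens α :=
  fun w => ∏ i, v i (w i)

/-- `T` lies in `Sub_r`: there are subspaces `V'_i` of `V_i` with `dim V'_i = r_i` and `T` in
`⊗ V'_i` (the span of the pure tensors with factors in the `V'_i`). -/
def InSub {ι : Type} [Fintype ι] (α : ι → Type) (r : ι → ℕ) (T : Tens α) : Prop :=
  ∃ V' : (i : ι) → Submodule ℂ (α i → ℂ), (∀ i, Module.finrank ℂ (V' i) = r i) ∧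
    T ∈ Submodule.span ℂ {t | ∃ v : (i : ι) → α i → ℂ, (∀ i, v i ∈ V' i) ∧ t = pureT v}

/-- The rank of `T` with respect to `Sub_r` is at most `s`. -/
def RankLE {ι : Type} [Fintype ι] (α : ι → Type) (r : ι → ℕ) (s : ℕ) (T : Tens α) : Prop :=
  ∃ t : Fin s → Tens α, (∀ j, InSub α r (t j)) ∧ T = ∑ j, t j

/-- The set `S` of tensors contains a nonempty Zariski open subset: it contains
`{T | P(T) ≠ 0}` for some nonzero polynomial `P` in the entries of `T`. -/
def ContainsOpen {ι : Type} (α : ι → Type) (S : Set (Tens α)) : Prop :=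
  ∃ P : MvPolynomial ((i : ι) → α i) ℂ, P ≠ 0 ∧ ∀ T : Tens α, eval T P ≠ 0 → T ∈ S

/-- `s` is the generic rank with respect to `Sub_r`. -/
def IsGenericRank {ι : Type} [Fintype ι] (α : ι → Type) (r : ι → ℕ) (s : ℕ) : Prop :=
  IsLeast {s | ContainsOpen α {T | RankLE α r s T}} s

end Pool.Agent.H42.TR
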