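import Pool.Agent.H42.TR.Defs
import Pool.Agent.H42.GR.Lower3

/-!
The lower bound: a dimension count for sums of `s` elements of `Sub_r`.
-/

namespace Pool.Agent.H42.TR

open MvPolynomial
open Pool.Agent.H42.GR (Bm Gm hpoly Gm_orth Bm_map Gm_map hpoly_map hpoly_one Shape eval_aeval
  exists_relation)

variable {ι : Type} [Fintype ι] [DecidableEq ι] {α : ι → Type} [∀ i, Fintype (α i)]
  [∀ i, DecidableEq (α i)]

/-- The word involves all blocks. -/
def Meets {s : ℕ} (b : (i : ι) → α i → Option (Fin s)) (u : (i : ι) → α i) : Prop :=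
  ∀ j : Fin s, ∃ i, b i (u i) = some j

omit [∀ i, DecidableEq (α i)] in
/-- Sum over words of a product. -/
theorem sum_prod {S : Type} [CommRing S] (f : (i : ι) → α i → S) :
    ∑ w : (i : ι) → α i, ∏ i, f i (w i) = ∏ i, ∑ k, f i k := by
  rw [Finset.prod_univ_sum, Fintype.piFinset_univ]

omit [DecidableEq ι] [∀ i, Fintype (α i)] in
theorem prod_delta {S : Type} [CommRing S] (w u : (i : ι) → α i) :
    ∏ i, (if w i = u i then (1 : S) else 0) = if w = u then 1 else 0 := by
  by_cases h : w = u
  · subst h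
    simp
  · rw [if_neg h]
    obtain ⟨i, hi⟩ := Function.ne_iff.mp h
    exact Finset.prod_eq_zero (Finset.mem_univ i) (if_neg hi)

/-- The action of matrices. -/
def act {S : Type} [CommRing S] (G : (i : ι) → Matrix (α i) (α i) S)
    (T : ((i : ι) → α i) → S) : ((i : ι) → α i) → S :=
  fun u => ∑ w, T w * ∏ i, G i (w i) (u i)

theorem act_act {S : Type} [CommRing S] (G H : (i : ι) → Matrix (α i) (α i) S)
    (T : ((i : ι) → α i) → S) : act G (act H T) = act (fun i => H i * G i) T := by
  funext u
  simp only [act, Finset.sum_mul]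
  rw [Finset.sum_comm]
  refine Finset.sum_congr rfl fun v _ => ?_
  have h1 : ∀ w : (i : ι) → α i, T v * (∏ i, H i (v i) (w i)) * ∏ i, G i (w i) (u i) =
      T v * ∏ i, (H i (v i) (w i) * G i (w i) (u i)) := by
    intro w
    rw [Finset.prod_mul_distrib, mul_assoc]
  rw [Finset.sum_congr rfl fun w _ => h1 w, ← Finset.mul_sum,
    sum_prod (fun i k => H i (v i) k * G i k (u i))]
  rfl

theorem act_one {S : Type} [CommRing S] (T : ((i : ι) → α i) → S) :
    act (fun i => (1 : Matrix (α i) (α i) S)) T = T := by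
  funext u
  simp only [act, Matrix.one_apply]
  rw [Finset.sum_eq_single u]
  · rw [prod_delta, if_pos rfl, mul_one]
  · intro w _ hw
    rw [prod_delta, if_neg hw, mul_zero]
  · simp

/-- The parameter space. -/
abbrev Par {s : ℕ} (b : (i : ι) → α i → Option (Fin s)) : Type :=
  (Σ i : ι, {p : α i × α i // b i p.2 ≠ none ∧ b i p.1 ≠ b i p.2}) ⊕
    {u : (i : ι) → α i // ¬ Meets b u}

noncomputable instance {s : ℕ} (b : (i : ι) → α i → Option (Fin s)) :
    Fintype {u : (i : ι) → α i // ¬ Meets b u} := by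
  classical
  exact Fintype.subtype (Finset.univ.filter fun u => ¬ Meets b u) (by
    intro u
    rw [Finset.mem_filter]
    exact ⟨fun h => h.2, fun h => ⟨Finset.mem_univ _, h⟩⟩)

/-- The generic matrices. -/
noncomputable def Ggen {s : ℕ} (b : (i : ι) → α i → Option (Fin s)) (i : ι) :
    Matrix (α i) (α i) (MvPolynomial (Par b) ℂ) := by
  classical
  exact Matrix.of fun k l => if h : b i l ≠ none ∧ b i k ≠ b i l
    then X (Sum.inl ⟨i, ⟨(k, l), h⟩⟩)
    else if k = l then 1 else 0

/-- The generic tensor. -/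
noncomputable def Tgen {s : ℕ} (b : (i : ι) → α i → Option (Fin s)) (w : (i : ι) → α i) :
    MvPolynomial (Par b) ℂ :=
  ∑ u : {u : (i : ι) → α i // ¬ Meets b u},
    X (Sum.inr u) * ∏ i, (Ggen b i).adjugate (u.1 i) (w i)

theorem claimA {s : ℕ} (b : (i : ι) → α i → Option (Fin s))
    (G : (i : ι) → Matrix (α i) (α i) ℂ) (hG : ∀ i, Shape (b i) (G i))
    (hdet : ∀ i, (G i).det ≠ 0) (T : Tens α)
    (hmiss : ∀ u, Meets b u → act G T u = 0) :
    ∃ y : Par b → ℂ, ∀ w, eval y (Tgen b w) = T w := by
  classical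
  set T' := act G T with hT'
  set D : ℂ := ∏ i, ((G i).det)⁻¹ with hD
  refine ⟨Sum.elim (fun p => G p.1 p.2.1.1 p.2.1.2) (fun u => T' u.1 * D), fun w => ?_⟩
  set y : Par b → ℂ :=
    Sum.elim (fun p => G p.1 p.2.1.1 p.2.1.2) (fun u => T' u.1 * D) with hy
  have hGm : ∀ i, (eval y).mapMatrix (Ggen b i) = G i := by
    intro i
    ext k l
    simp only [Ggen, RingHom.mapMatrix_apply, Matrix.map_apply, Matrix.of_apply]
    split_ifs with h h'
    · rw [eval_X]
      simp [hy]
    · rw [map_one, hG i k l h, if_pos h']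
    · rw [map_zero, hG i k l h, if_neg h']
  have hadj : ∀ i k l, eval y ((Ggen b i).adjugate k l) = (G i).adjugate k l := by
    intro i k l
    rw [← hGm i, ← RingHom.map_adjugate]
    rfl
  have h2 : T = act (fun i => (G i)⁻¹) T' := by
    rw [hT', act_act]
    have : (fun i => G i * (G i)⁻¹) = fun i => (1 : Matrix (α i) (α i) ℂ) := by
      funext i
      exact Matrix.mul_nonsing_inv _ (Ne.isUnit (hdet i))
    rw [this, act_one]
  have hinv : ∀ i k l, (G i)⁻¹ k l = ((G i).det)⁻¹ * (G i).adjugate k l := by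
    intro i k l
    rw [Matrix.inv_def, Matrix.smul_apply, Ring.inverse_eq_inv', smul_eq_mul]
  conv_rhs => rw [h2]
  simp only [act, hinv, Finset.prod_mul_distrib]
  rw [← Finset.sum_filter_add_sum_filter_not Finset.univ (fun u => ¬ Meets b u)]
  have h4 : ∑ u ∈ Finset.univ.filter (fun u => ¬ ¬ Meets b u),
      T' u * ((∏ i, ((G i).det)⁻¹) * ∏ i, (G i).adjugate (u i) (w i)) = 0 := by
    refine Finset.sum_eq_zero fun u hu => ?_
    rw [Finset.mem_filter, not_not] at hu
    rw [hmiss u hu.2, zero_mul]
  rw [h4, add_zero]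
  unfold Tgen
  rw [map_sum]
  symm
  rw [Finset.sum_subtype (p := fun u => ¬ Meets b u) _ (by
    intro u
    rw [Finset.mem_filter]
    exact ⟨fun h => h.2, fun h => ⟨Finset.mem_univ _, h⟩⟩)]
  refine Finset.sum_congr rfl fun u _ => ?_
  rw [map_mul, eval_X, map_prod]
  simp only [hadj]
  simp only [hy, Sum.elim_inr]
  ring

/-- The sum of `s` tensors in parametrised form. -/
noncomputable def Tsum {S : Type} [CommRing S] {s : ℕ} (b : (i : ι) → α i → Option (Fin s))
    (A : Fin s → (i : ι) → α i → α i → S) (Q : Fin s → ((i : ι) → α i) → S) :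
    ((i : ι) → α i) → S :=
  fun w => ∑ j, ∑ u, Q j u * ∏ i, (if b i (u i) = some j then 0 else A j i (w i) (u i))

/-- The genericity condition. -/
def hp {S : Type} [CommRing S] {s : ℕ} (b : (i : ι) → α i → Option (Fin s))
    (A : Fin s → (i : ι) → α i → α i → S) : S :=
  ∏ i, hpoly (b i) (fun j => A j i)

theorem claimB {s : ℕ} (b : (i : ι) → α i → Option (Fin s))
    (A : Fin s → (i : ι) → α i → α i → ℂ) (hA : hp b A ≠ 0) (Q : Fin s → Tens α) :
    ∃ G : (i : ι) → Matrix (α i) (α i) ℂ, (∀ i, Shape (b i) (G i)) ∧ (∀ i, (G i).det ≠ 0) ∧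
      ∀ u, Meets b u → act G (Tsum b A Q) u = 0 := by
  classical
  have hA' : ∀ i, hpoly (b i) (fun j => A j i) ≠ 0 := fun i =>
    Finset.prod_ne_zero_iff.mp hA i (Finset.mem_univ _)
  have hdG : ∀ i, (Gm (b i) (fun j => A j i)).det ≠ 0 := fun i => left_ne_zero_of_mul (hA' i)
  have hdB : ∀ i j, (Bm (b i) (fun j => A j i) j).det ≠ 0 := fun i j =>
    Finset.prod_ne_zero_iff.mp (right_ne_zero_of_mul (hA' i)) j (Finset.mem_univ _)
  set v : (i : ι) → α i → ℂ := fun i l => match b i l with
    | none => 1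
    | some j => (Bm (b i) (fun j => A j i) j).det⁻¹ with hv
  have hv0 : ∀ i l, v i l ≠ 0 := by
    intro i l
    simp only [hv]
    cases b i l with
    | none => exact one_ne_zero
    | some j => exact inv_ne_zero (hdB i j)
  set G : (i : ι) → Matrix (α i) (α i) ℂ := fun i =>
    Matrix.of fun k l => v i l * Gm (b i) (fun j => A j i) k l with hG
  refine ⟨G, ?_, ?_, ?_⟩
  · intro i k l hkl
    simp only [hG, Matrix.of_apply, hv, Gm]
    cases hb : b i l with
    | none => simp
    | some j =>
      simp only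
      have : b i k = some j := by
        by_contra h
        apply hkl
        rw [hb]
        exact ⟨by simp, h⟩
      rw [if_pos this]
      split_ifs with h
      · exact inv_mul_cancel₀ (hdB i j)
      · simp
  · intro i
    have : (G i).det = (∏ l, v i l) * (Gm (b i) (fun j => A j i)).det := by
      rw [hG]
      exact Matrix.det_mul_row (v i) (Gm (b i) (fun j => A j i))
    rw [this]
    exact mul_ne_zero (Finset.prod_ne_zero_iff.mpr fun l _ => hv0 i l) (hdG i)
  · intro u hu
    simp only [act, Tsum, Finset.sum_mul]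
    rw [Finset.sum_comm]
    refine Finset.sum_eq_zero fun j _ => ?_
    rw [Finset.sum_comm]
    refine Finset.sum_eq_zero fun x _ => ?_
    have h1 : ∀ w : (i : ι) → α i,
        Q j x * (∏ i, (if b i (x i) = some j then 0 else A j i (w i) (x i))) *
          ∏ i, G i (w i) (u i) =
        Q j x * ∏ i, ((if b i (x i) = some j then 0 else A j i (w i) (x i)) *
          G i (w i) (u i)) := by
      intro w
      rw [Finset.prod_mul_distrib, mul_assoc]
    rw [Finset.sum_congr rfl fun w _ => h1 w, ← Finset.mul_sum,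
      sum_prod (fun i k => (if b i (x i) = some j then 0 else A j i k (x i)) * G i k (u i))]
    obtain ⟨i, hi⟩ := hu j
    have h2 : ∑ k, (if b i (x i) = some j then 0 else A j i k (x i)) * G i k (u i) = 0 := by
      by_cases hx : b i (x i) = some j
      · simp [hx]
      · simp only [if_neg hx]
        have h6 := Gm_orth (b i) (fun j => A j i) j (u i) (x i) hi hx
        have h7 : ∀ k, A j i k (x i) * G i k (u i) =
            v i (u i) * (A j i k (x i) * Gm (b i) (fun j => A j i) k (u i)) := by
          intro k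
          simp only [hG, Matrix.of_apply]
          ring
        rw [Finset.sum_congr rfl fun k _ => h7 k, ← Finset.mul_sum, h6, mul_zero]
    rw [Finset.prod_eq_zero (Finset.mem_univ i) h2, mul_zero]

omit [∀ i, DecidableEq (α i)] in
theorem Tsum_map {S S' : Type} [CommRing S] [CommRing S'] {s : ℕ} (f : S →+* S')
    (b : (i : ι) → α i → Option (Fin s)) (A : Fin s → (i : ι) → α i → α i → S)
    (Q : Fin s → ((i : ι) → α i) → S) (w : (i : ι) → α i) :
    f (Tsum b A Q w) = Tsum b (fun j i k l => f (A j i k l)) (fun j u => f (Q j u)) w := by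
  unfold Tsum
  rw [map_sum]
  refine Finset.sum_congr rfl fun j _ => ?_
  rw [map_sum]
  refine Finset.sum_congr rfl fun u _ => ?_
  rw [map_mul, map_prod]
  congr 1
  refine Finset.prod_congr rfl fun i _ => ?_
  split_ifs
  · exact map_zero f
  · rfl

/-- The elements of `Sub_r` in parametrised form. -/
theorem param_of_inSub {s : ℕ} {r : ι → ℕ} (b : (i : ι) → α i → Option (Fin s)) (j : Fin s)
    (hb : ∀ i, Fintype.card {l : α i // b i l ≠ some j} = r i) {T : Tens α}
    (hT : InSub α r T) :
    ∃ (A : (i : ι) → α i → α i → ℂ) (Q : Tens α),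
      T = fun w => ∑ u, Q u * ∏ i, (if b i (u i) = some j then 0 else A i (w i) (u i)) := by
  classical
  obtain ⟨V', hVr, hTV⟩ := hT
  have e : ∀ i, Fin (Module.finrank ℂ (V' i)) ≃ {l : α i // b i l ≠ some j} := fun i =>
    (finCongr ((hVr i).trans (hb i).symm)).trans (Fintype.equivFin _).symm
  set B := fun i => (Module.finBasis ℂ (V' i)).reindex (e i) with hB
  set A : (i : ι) → α i → α i → ℂ := fun i k l =>
    if h : b i l = some j then 0 else ((B i ⟨l, h⟩ : V' i) : α i → ℂ) k with hA
  have hv : ∀ i (x : α i → ℂ), x ∈ V' i → ∃ cf : α i → ℂ, ∀ k,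
      x k = ∑ l, cf l * (if b i l = some j then 0 else A i k l) := by
    intro i x hx
    have h1 : (⟨x, hx⟩ : V' i) = ∑ l, (B i).repr ⟨x, hx⟩ l • B i l := ((B i).sum_repr _).symm
    have h2 : x = ∑ l, (B i).repr ⟨x, hx⟩ l • ((B i l : V' i) : α i → ℂ) := by
      have := congrArg ((V' i).subtype) h1
      rw [map_sum] at this
      exact this
    refine ⟨fun l => if h : b i l = some j then 0 else (B i).repr ⟨x, hx⟩ ⟨l, h⟩, fun k => ?_⟩
    have h3 : x k = ∑ l, (B i).repr ⟨x, hx⟩ l * ((B i l : V' i) : α i → ℂ) k := by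
      conv_lhs => rw [h2]
      rw [Finset.sum_apply]
      rfl
    rw [h3]
    rw [← Finset.sum_filter_add_sum_filter_not Finset.univ (fun l : α i => b i l ≠ some j)]
    have h4 : ∑ l ∈ Finset.univ.filter (fun l : α i => ¬ (b i l ≠ some j)),
        (if h : b i l = some j then 0 else (B i).repr ⟨x, hx⟩ ⟨l, h⟩) *
          (if b i l = some j then 0 else A i k l) = 0 := by
      refine Finset.sum_eq_zero fun l hl => ?_
      rw [Finset.mem_filter, not_not] at hl
      rw [dif_pos hl.2, zero_mul]
    rw [h4, add_zero]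
    rw [Finset.sum_subtype (p := fun l : α i => b i l ≠ some j) _ (by
      intro l
      rw [Finset.mem_filter]
      exact ⟨fun h => h.2, fun h => ⟨Finset.mem_univ _, h⟩⟩)]
    refine Finset.sum_congr rfl fun l _ => ?_
    beta_reduce
    rw [dif_neg l.2, if_neg l.2]
    simp only [hA]
    rw [dif_neg l.2]
  -- the set of parametrised tensors is a subspace containing the pure tensors
  set W : Submodule ℂ (Tens α) :=
    { carrier := {T | ∃ Q : Tens α, T = fun w => ∑ u, Q u *
        ∏ i, (if b i (u i) = some j then 0 else A i (w i) (u i))}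
      add_mem' := by
        rintro _ _ ⟨Q, rfl⟩ ⟨Q', rfl⟩
        refine ⟨fun u => Q u + Q' u, ?_⟩
        funext w
        simp only [Pi.add_apply, add_mul, Finset.sum_add_distrib]
      zero_mem' := ⟨fun _ => 0, by funext w; simp⟩
      smul_mem' := by
        rintro a _ ⟨Q, rfl⟩
        refine ⟨fun u => a * Q u, ?_⟩
        funext w
        simp only [Pi.smul_apply, smul_eq_mul, Finset.mul_sum, mul_assoc] } with hW
  have hle : Submodule.span ℂ {t | ∃ v : (i : ι) → α i → ℂ, (∀ i, v i ∈ V' i) ∧ t = pureT v} ≤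
      W := by
    rw [Submodule.span_le]
    rintro _ ⟨v, hvV, rfl⟩
    choose cf hcf using fun i => hv i (v i) (hvV i)
    refine ⟨fun u => ∏ i, cf i (u i), ?_⟩
    funext w
    unfold pureT
    rw [Finset.prod_congr rfl fun i _ => hcf i (w i),
      ← sum_prod (fun i l => cf i l * (if b i l = some j then 0 else A i (w i) l))]
    refine Finset.sum_congr rfl fun u _ => ?_
    rw [Finset.prod_mul_distrib]
  obtain ⟨Q, hQ⟩ := hle hTV
  exact ⟨A, Q, hQ⟩

theorem not_containsOpen {s : ℕ} {r : ι → ℕ} (b : (i : ι) → α i → Option (Fin s))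
    (hb : ∀ i j, Fintype.card {l : α i // b i l ≠ some j} = r i)
    (hcount : Fintype.card (Par b) < Fintype.card ((i : ι) → α i)) :
    ¬ ContainsOpen α {T | RankLE α r s T} := by
  classical
  obtain ⟨P, hP0, hP⟩ := exists_relation hcount (Tgen b)
  -- vanishing for generic subspaces
  have van1 : ∀ (A : Fin s → (i : ι) → α i → α i → ℂ) (Q : Fin s → Tens α),
      hp b A ≠ 0 → eval (Tsum b A Q) P = 0 := by
    intro A Q hA
    obtain ⟨G, hG, hdet, hmiss⟩ := claimB b A hA Q
    obtain ⟨y, hy⟩ := claimA b G hG hdet (Tsum b A Q) hmiss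
    have h1 : Tsum b A Q = fun w => eval y (Tgen b w) := by
      funext w
      rw [hy]
    rw [h1, ← eval_aeval, hP, map_zero]
  -- vanishing for all subspaces
  have van2 : ∀ (A : Fin s → (i : ι) → α i → α i → ℂ) (Q : Fin s → Tens α),
      eval (Tsum b A Q) P = 0 := by
    intro A Q
    set Ag : Fin s → (i : ι) → α i → α i →
      MvPolynomial (Fin s × Σ i : ι, α i × α i) ℂ := fun j i k l => X (j, ⟨i, (k, l)⟩) with hAg
    set F : MvPolynomial (Fin s × Σ i : ι, α i × α i) ℂ :=
      aeval (Tsum b Ag (fun j u => C (Q j u))) P with hF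
    have hFe : ∀ A' : (Fin s × Σ i : ι, α i × α i) → ℂ, eval A' F =
        eval (Tsum b (fun j i k l => A' (j, ⟨i, (k, l)⟩)) Q) P := by
      intro A'
      rw [hF, eval_aeval]
      congr 2
      funext w
      rw [Tsum_map]
      congr 2
      · funext j i k l
        simp [hAg]
      · funext j u
        simp
    have hhe : ∀ A' : (Fin s × Σ i : ι, α i × α i) → ℂ, eval A' (hp b Ag) =
        hp b (fun j i k l => A' (j, ⟨i, (k, l)⟩)) := by
      intro A'
      unfold hp
      rw [map_prod]
      refine Finset.prod_congr rfl fun i _ => ?_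
      rw [hpoly_map]
      congr 1
      funext j k l
      simp [hAg]
    have hh0 : hp b Ag ≠ 0 := by
      intro h0
      have h1 := hhe (fun p => if p.2.2.1 = p.2.2.2 then 1 else 0)
      rw [h0, map_zero] at h1
      have h2 : hp b (fun (_ : Fin s) i (k l : α i) => if k = l then (1 : ℂ) else 0) = 1 := by
        unfold hp
        exact Finset.prod_eq_one fun i _ => hpoly_one (b i)
      simp only at h1
      rw [h2] at h1
      exact zero_ne_one h1
    have hprod : F * hp b Ag = 0 := by
      apply MvPolynomial.funext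
      intro A'
      rw [map_mul, map_zero, hhe, hFe]
      by_cases hA' : hp b (fun j i k l => A' (j, ⟨i, (k, l)⟩)) = 0
      · rw [hA', mul_zero]
      · rw [van1 _ Q hA', zero_mul]
    have hF0 : F = 0 := (mul_eq_zero.mp hprod).resolve_right hh0
    have h3 := hFe (fun p => A p.1 p.2.1 p.2.2.1 p.2.2.2)
    rw [hF0, map_zero] at h3
    exact h3.symm
  -- vanishing on the set of tensors of rank at most `s`
  have van3 : ∀ T : Tens α, RankLE α r s T → eval T P = 0 := by
    rintro T ⟨t, ht, rfl⟩
    have := fun j => param_of_inSub b j (fun i => hb i j) (ht j)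
    choose A Q hAQ using this
    have h1 : ∑ j, t j = Tsum b A Q := by
      funext w
      unfold Tsum
      rw [Finset.sum_apply]
      refine Finset.sum_congr rfl fun j _ => ?_
      rw [hAQ j]
    rw [h1]
    exact van2 A Q
  rintro ⟨P', hP'0, hP'⟩
  have hprod : P' * P = 0 := by
    apply MvPolynomial.funext
    intro y
    rw [map_mul, map_zero]
    by_cases h : eval y P' = 0
    · rw [h, zero_mul]
    · rw [van3 _ (hP' y h), mul_zero]
  rcases mul_eq_zero.mp hprod with h | h
  · exact hP'0 h
  · exact hP0 h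

end Pool.Agent.H42.TR
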