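import Pool.Agent.H42.TR.Count

/-!
The generic rank is at most `n` if there are enough free coordinates.
-/

namespace Pool.Agent.H42.TR

open MvPolynomial
open Pool.Agent.H42.GR (blk blk_e blk_eq_some card_compl_blk card_pairs_le exists_emb)

variable {n : ℕ} {c : Fin n → ℕ} {α : Fin n → Type} [∀ i, Fintype (α i)]
  [∀ i, DecidableEq (α i)]

/-- The position whose block is the successor of the block at `i₀`. -/
def lev (nx : Equiv.Perm (Fin n)) (i₀ : Fin n) (π : Equiv.Perm (Fin n)) : Fin n :=
  π.symm (nx (π i₀))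

theorem lev_ne (nx : Equiv.Perm (Fin n)) (hnx : ∀ j, nx j ≠ j) (i₀ : Fin n)
    (π : Equiv.Perm (Fin n)) : lev nx i₀ π ≠ i₀ := by
  intro h
  unfold lev at h
  rw [Equiv.symm_apply_eq] at h
  exact hnx _ h

theorem lev_eq_iff (nx : Equiv.Perm (Fin n)) (i₀ i : Fin n) (π : Equiv.Perm (Fin n)) :
    lev nx i₀ π = i ↔ π i = nx (π i₀) := by
  unfold lev
  rw [Equiv.symm_apply_eq]
  exact eq_comm

/-- The pairs (box, cross section) assigned to direction `i`, with block `j` at `i₀`. -/
def U (nx : Equiv.Perm (Fin n)) (i₀ : Fin n) (z0 : (i : Fin n) → Fin (c i)) (i j : Fin n) :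
    Finset (PX n c) :=
  (Finset.univ.filter (fun π : Equiv.Perm (Fin n) => π i₀ = j ∧ π i = nx j)) ×ˢ
    Fintype.piFinset (fun l => if l = i ∨ l = i₀ then ({z0 l} : Finset (Fin (c l)))
      else Finset.univ)

theorem mem_U (nx : Equiv.Perm (Fin n)) (i₀ : Fin n) (z0 : (i : Fin n) → Fin (c i))
    (i j : Fin n) (p : PX n c) : p ∈ U nx i₀ z0 i j ↔
      (p.1 i₀ = j ∧ p.1 i = nx j) ∧ (p.2 i = z0 i ∧ p.2 i₀ = z0 i₀) := by
  unfold U
  rw [Finset.mem_product, Finset.mem_filter, Fintype.mem_piFinset]
  constructor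
  · rintro ⟨⟨_, h1⟩, h2⟩
    refine ⟨h1, ?_, ?_⟩
    · have := h2 i
      rw [if_pos (Or.inl rfl), Finset.mem_singleton] at this
      exact this
    · have := h2 i₀
      rw [if_pos (Or.inr rfl), Finset.mem_singleton] at this
      exact this
  · rintro ⟨h1, h2, h3⟩
    refine ⟨⟨Finset.mem_univ _, h1⟩, fun l => ?_⟩
    split_ifs with hl
    · rw [Finset.mem_singleton]
      rcases hl with rfl | rfl
      · exact h2
      · exact h3
    · exact Finset.mem_univ _

theorem card_U (nx : Equiv.Perm (Fin n)) (hnx : ∀ j, nx j ≠ j) (i₀ : Fin n)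
    (z0 : (i : Fin n) → Fin (c i)) (i j : Fin n) (hi : i ≠ i₀) :
    (U nx i₀ z0 i j).card = (n - 2).factorial * ∏ l ∈ (Finset.univ.erase i₀).erase i, c l := by
  unfold U
  rw [Finset.card_product, card_perm_two (Ne.symm hi) (Ne.symm (hnx j)), Fintype.card_piFinset]
  congr 1
  have h2 : ∀ l, (if l = i ∨ l = i₀ then ({z0 l} : Finset (Fin (c l))) else
      Finset.univ).card = if l = i ∨ l = i₀ then 1 else c l := by
    intro l
    split_ifs
    · exact Finset.card_singleton _
    · rw [Finset.card_univ, Fintype.card_fin]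
  rw [Finset.prod_congr rfl fun l _ => h2 l, Finset.prod_ite, Finset.prod_const_one, one_mul]
  apply Finset.prod_congr
  · ext l
    simp only [Finset.mem_filter, Finset.mem_univ, true_and, not_or, Finset.mem_erase]
    tauto
  · intros
    rfl

theorem containsOpen_n (hn : 2 ≤ n) (hc : ∀ i, 0 < c i) (i₀ : Fin n) (f lam : Fin n → ℕ)
    (hm : ∀ i, n * c i + f i ≤ Fintype.card (α i))
    (hlf : ∀ i, i ≠ i₀ → c i₀ * lam i ≤ f i)
    (hlu : ∀ i, i ≠ i₀ → lam i ≤ (n - 2).factorial * ∏ l ∈ (Finset.univ.erase i₀).erase i, c l)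
    (hsum : ∑ i ∈ Finset.univ.erase i₀,
      c i * ((n - 2).factorial * (∏ l ∈ (Finset.univ.erase i₀).erase i, c l) - lam i) ≤ f i₀) :
    ContainsOpen α {T | RankLE α (fun i => Fintype.card (α i) - c i) n T} := by
  classical
  -- the embeddings
  have he : ∀ i, Nonempty (Fin n × Fin (c i) ↪ α i) := fun i =>
    exists_emb (σ := α i) (s := n) (c := c i) (le_trans (Nat.le_add_right _ _) (hm i))
  set e : (i : Fin n) → (Fin n × Fin (c i)) ↪ α i := fun i => (he i).some with hedef
  set z0 : (i : Fin n) → Fin (c i) := fun i => ⟨0, hc i⟩ with hz0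
  -- the successor
  obtain ⟨nx, hnx⟩ : ∃ nx : Equiv.Perm (Fin n), ∀ j, nx j ≠ j := by
    obtain ⟨N, rfl⟩ : ∃ N, n = N + 2 := ⟨n - 2, by omega⟩
    refine ⟨finRotate (N + 2), fun j h => ?_⟩
    rw [finRotate_succ_apply] at h
    have := add_eq_left.mp h
    exact one_ne_zero this
  -- the chosen cross sections
  have hS : ∀ i j : Fin n, ∃ Sj : Finset (PX n c), i ≠ i₀ →
      (Sj ⊆ U nx i₀ z0 i j ∧ Sj.card = lam i) := by
    intro i j
    by_cases hi : i = i₀
    · exact ⟨∅, fun h => absurd hi h⟩
    · obtain ⟨Sj, h2, h3⟩ := Finset.exists_subset_card_eq (n := lam i)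
        (s := U nx i₀ z0 i j) (by rw [card_U nx hnx i₀ z0 i j hi]; exact hlu i hi)
      exact ⟨Sj, fun _ => ⟨h2, h3⟩⟩
  choose S' hS' using hS
  set L : Equiv.Perm (Fin n) → Fin n := lev nx i₀ with hL
  set S : Finset (PX n c) := Finset.univ.filter (fun p => p ∈ S' (L p.1) (p.1 i₀)) with hSdef
  have hmemS : ∀ p : PX n c, p ∈ S ↔ p ∈ S' (L p.1) (p.1 i₀) := by
    intro p
    rw [hSdef, Finset.mem_filter]
    exact ⟨fun h => h.2, fun h => ⟨Finset.mem_univ _, h⟩⟩
  -- the free coordinates
  set F : (i : Fin n) → Finset (α i) := fun i =>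
    Finset.univ.filter (fun z => blk (e i) z = none) with hF
  have hFf : ∀ i, f i ≤ (F i).card := by
    intro i
    have h1 := card_free (e i)
    rw [Fintype.card_subtype] at h1
    have h2 := hm i
    simp only [hF]
    omega
  -- the lines of direction `i` with block `j` at `i`
  set A : (i j : Fin n) → Finset (PX n c) := fun i j =>
    Finset.univ.filter (fun p => (p.2 i = z0 i ∧ p.1 i = j) ∧
      (L p.1 = i ∧ upd p i₀ (z0 i₀) ∈ S)) with hA
  have hAf : ∀ i, i ≠ i₀ → ∀ j, (A i j).card ≤ (F i).card := by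
    intro i hi j
    refine le_trans ?_ ((hlf i hi).trans (hFf i))
    have h1 : (A i j).card ≤
        ((Finset.univ : Finset (Fin (c i₀))) ×ˢ S' i (nx.symm j)).card := by
      refine Finset.card_le_card_of_injOn (fun p => (p.2 i₀, upd p i₀ (z0 i₀))) ?_ ?_
      · intro p hp
        rw [Finset.mem_coe, hA, Finset.mem_filter] at hp
        rw [Finset.mem_coe, Finset.mem_product]
        refine ⟨Finset.mem_univ _, ?_⟩
        have h3 := (hmemS _).mp hp.2.2.2
        have h4 : (upd p i₀ (z0 i₀)).1 = p.1 := rfl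
        rw [h4, hp.2.2.1] at h3
        have h5 : p.1 i₀ = nx.symm j := by
          have := (lev_eq_iff nx i₀ i p.1).mp hp.2.2.1
          rw [hp.2.1.2] at this
          rw [this, Equiv.symm_apply_apply]
        rw [h5] at h3
        exact h3
      · intro p _ p' _ h
        rw [Prod.mk.injEq] at h
        have h2 : upd (upd p i₀ (z0 i₀)) i₀ (p.2 i₀) = upd (upd p' i₀ (z0 i₀)) i₀ (p'.2 i₀) := by
          rw [h.2, h.1]
        have h3 : ∀ p : PX n c, upd (upd p i₀ (z0 i₀)) i₀ (p.2 i₀) = p := by
          intro p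
          unfold upd
          simp only
          rw [Function.update_idem, Function.update_eq_self]
        rwa [h3, h3] at h2
    refine h1.trans ?_
    rw [Finset.card_product, (hS' i _ hi).2, Finset.card_univ, Fintype.card_fin]
  have hg : ∀ i j : Fin n, ∃ g : PX n c → α i, i ≠ i₀ →
      (∀ p ∈ A i j, g p ∈ F i) ∧ Set.InjOn g (A i j : Set (PX n c)) := by
    intro i j
    by_cases hi : i = i₀
    · exact ⟨fun _ => e i (i, z0 i), fun h => absurd hi h⟩
    · have h1 := hAf i hi j
      have h2 : Fintype.card ↥(A i j) ≤ Fintype.card ↥(F i) := by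
        rwa [Fintype.card_coe, Fintype.card_coe]
      obtain ⟨κ⟩ := Function.Embedding.nonempty_of_card_le h2
      refine ⟨fun p => if h : p ∈ A i j then (κ ⟨p, h⟩).1 else e i (i, z0 i), fun _ => ⟨?_, ?_⟩⟩
      · intro p hp
        simp only [dif_pos hp]
        exact (κ ⟨p, hp⟩).2
      · intro p hp p' hp' h
        rw [Finset.mem_coe] at hp hp'
        simp only [dif_pos hp, dif_pos hp'] at h
        have := κ.injective (Subtype.ext h)
        exact congrArg Subtype.val this
  choose g hg using hg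
  -- numbering of the free coordinates at `i₀`
  obtain ⟨num, hnum⟩ : ∃ num : (i : Fin n) → α i → ℕ, ∀ i, ∀ b < f i, ∃ z ∈ F i, num i z = b := by
    refine ⟨fun i z => if h : z ∈ F i then ((F i).equivFin ⟨z, h⟩).1 else 0, fun i b hb => ?_⟩
    refine ⟨((F i).equivFin.symm ⟨b, lt_of_lt_of_le hb (hFf i)⟩).1,
      ((F i).equivFin.symm ⟨b, lt_of_lt_of_le hb (hFf i)⟩).2, ?_⟩
    simp
  -- the injection into the complex numbers
  obtain ⟨t, ht⟩ : ∃ t : PX n c → ℂ, Function.Injective t := by
    refine ⟨fun ψ => ((Fintype.equivFin _ ψ : Fin _).1 : ℂ), fun ψ ψ' h => ?_⟩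
    have h1 : (Fintype.equivFin _ ψ : Fin _).1 = (Fintype.equivFin _ ψ' : Fin _).1 := by
      simp only at h
      exact_mod_cast h
    exact (Fintype.equivFin _).injective (Fin.ext h1)
  set q : (i : Fin n) → α i → PX n c → ℂ := fun i z p =>
    if i = i₀ then t p ^ num i z
    else if p ∈ A i (p.1 i) ∧ g i (p.1 i) p = z then 1 else 0 with hq
  set D : Submodule ℂ (Tens α) := Dir (fun i => blk (e i)) (basePt (Q0 e z0 q)) with hD
  have hDline : ∀ (j i : Fin n) (z : α i) (a : Fin (c i)), z ∈ F i →
      ∑ p ∈ Finset.univ.filter (fun p : PX n c => p.2 i = z0 i ∧ p.1 i = j),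
        q i z p • (Pi.single (cell e (upd p i a)) (1 : ℂ) : Tens α) ∈ D := by
    intro j i z a hz
    rw [hF, Finset.mem_filter] at hz
    rw [← Q0_line e z0 q j i z hz.2 a]
    exact mem_Dir_tan (fun i => blk (e i)) (Q0 e z0 q)
      (fun j u hu l => Q0_support e z0 q j u hu l) j i z (e i (j, a))
  have hcells : ∀ p : PX n c, (Pi.single (cell e p) (1 : ℂ) : Tens α) ∈ D := by
    refine cells_mem e z0 D i₀ (f i₀) L (lev_ne nx hnx i₀) S t ht ?_ ?_ ?_
    · intro p hp
      set i := L p.1 with hi
      have hi0 : i ≠ i₀ := lev_ne nx hnx i₀ p.1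
      set p₁ := upd p i (z0 i) with hp₁
      have hp₁A : p₁ ∈ A i (p.1 i) := by
        simp only [hA]
        rw [Finset.mem_filter]
        refine ⟨Finset.mem_univ _, ⟨?_, rfl⟩, hi.symm, hp⟩
        rw [hp₁]
        unfold upd
        simp
      have hz := (hg i (p.1 i) hi0).1 p₁ hp₁A
      have h1 := hDline (p.1 i) i (g i (p.1 i) p₁) (p.2 i) hz
      rw [Finset.sum_eq_single p₁] at h1
      · have h2 : q i (g i (p.1 i) p₁) p₁ = 1 := by
          simp only [hq]
          rw [if_neg hi0, if_pos]
          exact ⟨hp₁A, rfl⟩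
        have h3 : upd p₁ i (p.2 i) = p := by
          rw [hp₁]
          unfold upd
          simp only
          rw [Function.update_idem, Function.update_eq_self]
        rw [h2, h3, one_smul] at h1
        exact h1
      · intro p' hp' hne
        rw [Finset.mem_filter] at hp'
        have h2 : q i (g i (p.1 i) p₁) p' = 0 := by
          simp only [hq]
          rw [if_neg hi0, if_neg]
          rintro ⟨h3, h4⟩
          rw [hp'.2.2] at h3 h4
          exact hne ((hg i (p.1 i) hi0).2 (Finset.mem_coe.mpr h3) (Finset.mem_coe.mpr hp₁A) h4)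
        rw [h2, zero_smul]
      · intro h
        exfalso
        apply h
        rw [Finset.mem_filter]
        simp only [hA, Finset.mem_filter] at hp₁A
        exact ⟨Finset.mem_univ _, hp₁A.2.1⟩
    · intro j a b hb
      obtain ⟨z, hz, hzb⟩ := hnum i₀ b hb
      have h1 := hDline j i₀ z a hz
      have h2 : ∀ p, q i₀ z p = t p ^ b := by
        intro p
        simp only [hq]
        rw [if_pos trivial, hzb]
      simpa only [h2] using h1
    · intro j
      refine le_trans ?_ hsum
      have hsub : (Finset.univ.filter (fun p : PX n c => (p.2 i₀ = z0 i₀ ∧ p.1 i₀ = j) ∧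
          upd p (L p.1) (z0 _) ∉ S)) ⊆ (Finset.univ.erase i₀).biUnion (fun i =>
          Finset.univ.filter (fun p : PX n c => (p.2 i₀ = z0 i₀ ∧ p.1 i₀ = j) ∧
            (L p.1 = i ∧ upd p i (z0 i) ∉ S))) := by
        intro p hp
        rw [Finset.mem_filter] at hp
        rw [Finset.mem_biUnion]
        refine ⟨L p.1, Finset.mem_erase.mpr ⟨lev_ne nx hnx i₀ p.1, Finset.mem_univ _⟩, ?_⟩
        rw [Finset.mem_filter]
        exact ⟨hp.1, hp.2.1, rfl, hp.2.2⟩
      refine (Finset.card_le_card hsub).trans (Finset.card_biUnion_le.trans ?_)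
      refine Finset.sum_le_sum fun i hi => ?_
      have hi0 := Finset.ne_of_mem_erase hi
      have h1 : (Finset.univ.filter (fun p : PX n c => (p.2 i₀ = z0 i₀ ∧ p.1 i₀ = j) ∧
            (L p.1 = i ∧ upd p i (z0 i) ∉ S))).card ≤
          ((Finset.univ : Finset (Fin (c i))) ×ˢ (U nx i₀ z0 i j \ S' i j)).card := by
        refine Finset.card_le_card_of_injOn (fun p => (p.2 i, upd p i (z0 i))) ?_ ?_
        · intro p hp
          rw [Finset.mem_coe, Finset.mem_filter] at hp
          rw [Finset.mem_coe, Finset.mem_product, Finset.mem_sdiff, mem_U]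
          refine ⟨Finset.mem_univ _, ⟨⟨hp.2.1.2, ?_⟩, ?_, ?_⟩, ?_⟩
          · have := (lev_eq_iff nx i₀ i p.1).mp hp.2.2.1
            rw [hp.2.1.2] at this
            exact this
          · unfold upd
            simp
          · unfold upd
            simp only
            rw [Function.update_of_ne (Ne.symm hi0)]
            exact hp.2.1.1
          · intro h2
            apply hp.2.2.2
            rw [hmemS]
            have h4 : (upd p i (z0 i)).1 = p.1 := rfl
            rw [h4, hp.2.2.1, hp.2.1.2]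
            exact h2
        · intro p _ p' _ h
          rw [Prod.mk.injEq] at h
          have h2 : upd (upd p i (z0 i)) i (p.2 i) = upd (upd p' i (z0 i)) i (p'.2 i) := by
            rw [h.2, h.1]
          have h3 : ∀ p : PX n c, upd (upd p i (z0 i)) i (p.2 i) = p := by
            intro p
            unfold upd
            simp only
            rw [Function.update_idem, Function.update_eq_self]
          rwa [h3, h3] at h2
      refine h1.trans ?_
      rw [Finset.card_product, Finset.card_univ, Fintype.card_fin,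
        Finset.card_sdiff_of_subset (hS' i j hi0).1, card_U nx hnx i₀ z0 i j hi0,
        (hS' i j hi0).2]
  refine containsOpen_of_dir (fun i => blk (e i)) (fun i j => (card_compl_blk (e i) j).le)
    (fun i => Nat.sub_le _ _) (basePt (Q0 e z0 q)) fun w => ?_
  by_cases hmeet : Meets (fun i => blk (e i)) w
  · obtain ⟨p, rfl⟩ := eq_cell_of_meets e hmeet
    exact hcells p
  · unfold Meets at hmeet
    push Not at hmeet
    obtain ⟨j, hj⟩ := hmeet
    exact mem_Dir_word (fun i => blk (e i)) _ j w hj

end Pool.Agent.H42.TR
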