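import Pool.Agent.H42.TR.Low
import Pool.Agent.H42.GR.Blocks

/-!
Membership in `Sub_r`, monotonicity, the decomposition of every tensor into `n + 1` elements, and
the dominance criterion.
-/

namespace Pool.Agent.H42.TR

open MvPolynomial
open Pool.Agent.H42.GR (exists_between eval_aeval dominant_of_differential deriv_of_affine
  exists_open_in_image)

variable {ι : Type} [Fintype ι] [DecidableEq ι] {α : ι → Type} [∀ i, Fintype (α i)]
  [∀ i, DecidableEq (α i)]

theorem inSub_of_param {s : ℕ} {r : ι → ℕ} (b : (i : ι) → α i → Option (Fin s)) (j : Fin s)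
    (hb : ∀ i, Fintype.card {l : α i // b i l ≠ some j} ≤ r i)
    (hr : ∀ i, r i ≤ Fintype.card (α i)) (A : (i : ι) → α i → α i → ℂ) (Q : Tens α) :
    InSub α r (fun w => ∑ u, Q u * ∏ i, (if b i (u i) = some j then 0 else A i (w i) (u i))) := by
  classical
  set V₀ : (i : ι) → Submodule ℂ (α i → ℂ) := fun i =>
    Submodule.span ℂ (Set.range fun l : {l : α i // b i l ≠ some j} => fun k => A i k l.1)
    with hV₀
  have hfr : ∀ i, Module.finrank ℂ (V₀ i) ≤ r i := by
    intro i
    refine le_trans ?_ (hb i)
    exact finrank_range_le_card _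
  have hex : ∀ i, ∃ V' : Submodule ℂ (α i → ℂ), V₀ i ≤ V' ∧ V' ≤ ⊤ ∧
      Module.finrank ℂ V' = r i := by
    intro i
    apply exists_between (V₀ i) ⊤ le_top (r i) (hfr i)
    rw [finrank_top, Module.finrank_fintype_fun_eq_card]
    exact hr i
  choose V' h1 _ h3 using hex
  refine ⟨V', h3, ?_⟩
  have h4 : (fun w => ∑ u, Q u * ∏ i, (if b i (u i) = some j then 0 else A i (w i) (u i))) =
      ∑ u : (i : ι) → α i, Q u • pureT (fun i k =>
        if b i (u i) = some j then 0 else A i k (u i)) := by
    funext w
    rw [Finset.sum_apply]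
    rfl
  rw [h4]
  refine Submodule.sum_mem _ fun u _ => Submodule.smul_mem _ _ (Submodule.subset_span ?_)
  refine ⟨_, fun i => ?_, rfl⟩
  by_cases hi : b i (u i) = some j
  · simp only [if_pos hi]
    exact Submodule.zero_mem _
  · simp only [if_neg hi]
    exact h1 i (Submodule.subset_span ⟨⟨u i, hi⟩, rfl⟩)

theorem inSub_mono {r r' : ι → ℕ} (hrr : ∀ i, r i ≤ r' i)
    (hr' : ∀ i, r' i ≤ Fintype.card (α i)) {T : Tens α} (h : InSub α r T) : InSub α r' T := by
  obtain ⟨V', h2, h3⟩ := h
  have hex : ∀ i, ∃ V'' : Submodule ℂ (α i → ℂ), V' i ≤ V'' ∧ V'' ≤ ⊤ ∧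
      Module.finrank ℂ V'' = r' i := by
    intro i
    apply exists_between (V' i) ⊤ le_top (r' i) (by rw [h2 i]; exact hrr i)
    rw [finrank_top, Module.finrank_fintype_fun_eq_card]
    exact hr' i
  choose V'' h4 _ h6 using hex
  refine ⟨V'', h6, Submodule.span_mono ?_ h3⟩
  rintro _ ⟨v, hv, rfl⟩
  exact ⟨v, fun i => h4 i (hv i), rfl⟩

theorem inSub_zero {r : ι → ℕ} (hr : ∀ i, r i ≤ Fintype.card (α i)) :
    InSub α r (0 : Tens α) := by
  have hex : ∀ i, ∃ V'' : Submodule ℂ (α i → ℂ), (⊥ : Submodule ℂ (α i → ℂ)) ≤ V'' ∧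
      V'' ≤ ⊤ ∧ Module.finrank ℂ V'' = r i := by
    intro i
    apply exists_between ⊥ ⊤ le_top (r i) (by simp)
    rw [finrank_top, Module.finrank_fintype_fun_eq_card]
    exact hr i
  choose V'' _ _ h6 using hex
  exact ⟨V'', h6, Submodule.zero_mem _⟩

theorem rankLE_mono {r : ι → ℕ} {s s' : ℕ} (hss : s ≤ s')
    (hr : ∀ i, r i ≤ Fintype.card (α i)) {T : Tens α} (h : RankLE α r s T) :
    RankLE α r s' T := by
  obtain ⟨t, ht, rfl⟩ := h
  obtain ⟨d, rfl⟩ := Nat.exists_eq_add_of_le hss
  refine ⟨Fin.append t (fun _ => 0), fun j => ?_, ?_⟩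
  · refine Fin.addCases (fun i => ?_) (fun i => ?_) j
    · rw [Fin.append_left]
      exact ht i
    · rw [Fin.append_right]
      exact inSub_zero hr
  · rw [Fin.sum_univ_add]
    simp

omit [Fintype ι] [DecidableEq ι] [∀ i, Fintype (α i)] [∀ i, DecidableEq (α i)] in
theorem containsOpen_mono {S S' : Set (Tens α)} (h : S ⊆ S')
    (hS : ContainsOpen α S) : ContainsOpen α S' := by
  obtain ⟨P, hP1, hP2⟩ := hS
  exact ⟨P, hP1, fun T hT' => h (hP2 T hT')⟩

/-- If every word misses a block, every tensor is a sum of `s` elements. -/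
theorem rankLE_all {s : ℕ} {r : ι → ℕ} (b : (i : ι) → α i → Option (Fin s))
    (hb : ∀ i j, Fintype.card {l : α i // b i l ≠ some j} ≤ r i)
    (hr : ∀ i, r i ≤ Fintype.card (α i)) (hmiss : ∀ w : (i : ι) → α i, ¬ Meets b w)
    (T : Tens α) : RankLE α r s T := by
  classical
  have hmiss' : ∀ w : (i : ι) → α i, ∃ j, ∀ i, b i (w i) ≠ some j := by
    intro w
    have := hmiss w
    unfold Meets at this
    push Not at this
    exact this
  choose j hj using hmiss'
  refine ⟨fun k w => ∑ u, (if j u = k then T u else 0) *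
    ∏ i, (if b i (u i) = some k then 0 else (if w i = u i then 1 else 0)), fun k => ?_, ?_⟩
  · exact inSub_of_param b k (fun i => hb i k) hr (fun i k l => if k = l then 1 else 0) _
  · funext w
    rw [Finset.sum_apply, Finset.sum_comm]
    have h1 : ∀ u : (i : ι) → α i, ∑ k, (if j u = k then T u else 0) *
        ∏ i, (if b i (u i) = some k then (0 : ℂ) else (if w i = u i then 1 else 0)) =
        if w = u then T u else 0 := by
      intro u
      rw [Finset.sum_eq_single (j u)]
      · rw [if_pos rfl]
        have h2 : ∀ i, (if b i (u i) = some (j u) then (0 : ℂ) else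
            (if w i = u i then 1 else 0)) = if w i = u i then 1 else 0 := fun i =>
          if_neg (hj u i)
        rw [Finset.prod_congr rfl fun i _ => h2 i, prod_delta]
        split_ifs <;> simp
      · intro k _ hk
        rw [if_neg (Ne.symm hk), zero_mul]
      · simp
    rw [Finset.sum_congr rfl fun u _ => h1 u, Finset.sum_ite_eq, if_pos (Finset.mem_univ _)]

/-- Parameters. -/
abbrev PB {ι : Type} (α : ι → Type) (s : ℕ) : Type :=
  Fin s × ((Σ i : ι, α i × α i) ⊕ ((i : ι) → α i))

/-- The matrices at a point. -/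
def ptA {s : ℕ} {S : Type} (p : PB α s → S) : Fin s → (i : ι) → α i → α i → S :=
  fun j i k l => p (j, Sum.inl ⟨i, (k, l)⟩)

/-- The coefficients at a point. -/
def ptQ {s : ℕ} {S : Type} (p : PB α s → S) : Fin s → ((i : ι) → α i) → S :=
  fun j u => p (j, Sum.inr u)

/-- The polynomial map. -/
noncomputable def Phi {s : ℕ} (b : (i : ι) → α i → Option (Fin s)) (w : (i : ι) → α i) :
    MvPolynomial (PB α s) ℂ :=
  Tsum b (ptA (fun x : PB α s => (X x : MvPolynomial (PB α s) ℂ)))
    (ptQ (fun x : PB α s => (X x : MvPolynomial (PB α s) ℂ))) w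

omit [∀ i, DecidableEq (α i)] in
theorem eval_Phi {s : ℕ} (b : (i : ι) → α i → Option (Fin s)) (p : PB α s → ℂ)
    (w : (i : ι) → α i) : eval p (Phi b w) = Tsum b (ptA p) (ptQ p) w := by
  unfold Phi
  rw [Tsum_map]
  congr 1
  · funext j i k l
    simp [ptA]
  · funext j u
    simp [ptQ]

/-- The tangent directions at the point `p`. -/
noncomputable def Dir {s : ℕ} (b : (i : ι) → α i → Option (Fin s)) (p : PB α s → ℂ) :
    Submodule ℂ (Tens α) where
  carrier := {P | ∃ q : PB α s → ℂ, ∀ w : (i : ι) → α i,
    ∑ x, q x * eval p (pderiv x (Phi b w)) = P w}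
  add_mem' := by
    rintro P P' ⟨q, hq⟩ ⟨q', hq'⟩
    refine ⟨fun x => q x + q' x, fun w => ?_⟩
    rw [Pi.add_apply, ← hq, ← hq', ← Finset.sum_add_distrib]
    refine Finset.sum_congr rfl fun x _ => ?_
    ring
  zero_mem' := ⟨fun _ => 0, fun w => by simp⟩
  smul_mem' := by
    rintro a P ⟨q, hq⟩
    refine ⟨fun x => a * q x, fun w => ?_⟩
    rw [Pi.smul_apply, smul_eq_mul, ← hq, Finset.mul_sum]
    refine Finset.sum_congr rfl fun x _ => ?_
    ring

theorem mem_Dir_of_affine {s : ℕ} (b : (i : ι) → α i → Option (Fin s)) (p q : PB α s → ℂ)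
    (P : Tens α)
    (h : ∀ (t : ℂ) w, Tsum b (ptA fun x => p x + t * q x) (ptQ fun x => p x + t * q x) w =
      Tsum b (ptA p) (ptQ p) w + t * P w) :
    P ∈ Dir b p := by
  refine ⟨q, fun w => ?_⟩
  apply deriv_of_affine
  intro t
  rw [eval_Phi, eval_Phi, h t w]

/-- The base point. -/
def basePt {s : ℕ} (Q₀ : Fin s → Tens α) : PB α s → ℂ :=
  fun x => Sum.elim (fun kl : (Σ i : ι, α i × α i) => if kl.2.1 = kl.2.2 then 1 else 0)
    (fun u => Q₀ x.1 u) x.2

omit [DecidableEq ι] [∀ i, Fintype (α i)] in
theorem prod_base {s : ℕ} (b : (i : ι) → α i → Option (Fin s)) (j : Fin s)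
    (w u : (i : ι) → α i) (hu : ∀ i, b i (u i) ≠ some j) :
    ∏ i, (if b i (u i) = some j then (0 : ℂ) else (if w i = u i then 1 else 0)) =
      if w = u then 1 else 0 := by
  have h2 : ∀ i, (if b i (u i) = some j then (0 : ℂ) else
      (if w i = u i then 1 else 0)) = if w i = u i then 1 else 0 := fun i => if_neg (hu i)
  rw [Finset.prod_congr rfl fun i _ => h2 i, prod_delta]

/-- Direction (a): words missing a block. -/
theorem mem_Dir_word {s : ℕ} (b : (i : ι) → α i → Option (Fin s)) (Q₀ : Fin s → Tens α)
    (j : Fin s) (v : (i : ι) → α i) (hv : ∀ i, b i (v i) ≠ some j) :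
    (Pi.single v (1 : ℂ) : Tens α) ∈ Dir b (basePt Q₀) := by
  classical
  set q : PB α s → ℂ := fun x => if x = (j, Sum.inr v) then 1 else 0 with hq
  apply mem_Dir_of_affine b _ q
  intro t w
  have hA : ptA (fun x => basePt Q₀ x + t * q x) = ptA (basePt Q₀ : PB α s → ℂ) := by
    funext j' i k l
    simp [ptA, hq]
  rw [hA]
  simp only [Tsum]
  have h1 : ∀ j' (u : (i : ι) → α i), ptQ (fun x => basePt Q₀ x + t * q x) j' u =
      ptQ (basePt Q₀ : PB α s → ℂ) j' u + (if j' = j then (if u = v then t else 0) else 0) := by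
    intro j' u
    simp only [ptQ, hq]
    congr 1
    by_cases h2 : j' = j
    · subst h2
      by_cases h3 : u = v
      · simp [h3]
      · simp [h3]
    · simp [h2]
  simp only [h1, add_mul, Finset.sum_add_distrib]
  congr 1
  have h4 : ∀ j', ∑ u : (i : ι) → α i, (if j' = j then (if u = v then t else 0) else 0) *
      ∏ i, (if b i (u i) = some j' then 0 else
        ptA (basePt Q₀ : PB α s → ℂ) j' i (w i) (u i)) =
      if j' = j then t * (Pi.single v (1 : ℂ) : Tens α) w else 0 := by
    intro j'
    by_cases h5 : j' = j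
    · subst h5
      rw [if_pos rfl, Finset.sum_eq_single v]
      · rw [if_pos rfl, if_pos rfl]
        congr 1
        have := prod_base b j' w v hv
        simp only [ptA, basePt, Sum.elim_inl]
        rw [this, Pi.single_apply]
      · intro u _ hu
        rw [if_pos rfl, if_neg hu, zero_mul]
      · simp
    · simp [h5]
  rw [Finset.sum_congr rfl fun j' _ => h4 j', Finset.sum_ite_eq', if_pos (Finset.mem_univ _)]

/-- Direction (b). -/
theorem mem_Dir_tan {s : ℕ} (b : (i : ι) → α i → Option (Fin s)) (Q₀ : Fin s → Tens α)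
    (hQ₀ : ∀ j u, Q₀ j u ≠ 0 → ∀ i, b i (u i) ≠ some j)
    (j : Fin s) (i : ι) (z k₀ : α i) :
    (fun w => if w i = k₀ then Q₀ j (Function.update w i z) else 0 : Tens α) ∈
      Dir b (basePt Q₀) := by
  classical
  set q : PB α s → ℂ := fun x => if x = (j, Sum.inl ⟨i, (k₀, z)⟩) then 1 else 0 with hq
  apply mem_Dir_of_affine b _ q
  intro t w
  have hQ : ptQ (fun x => basePt Q₀ x + t * q x) = Q₀ := by
    funext j' u
    simp [ptQ, hq, basePt]
  have hQ' : ptQ (basePt Q₀ : PB α s → ℂ) = Q₀ := by
    funext j' u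
    simp [ptQ, basePt]
  rw [hQ, hQ']
  simp only [Tsum]
  have hentry : ∀ j' i' (k l : α i'), ptA (fun x => basePt Q₀ x + t * q x) j' i' k l =
      (if k = l then 1 else 0) +
        (if (j', (⟨i', (k, l)⟩ : Σ i : ι, α i × α i)) = (j, ⟨i, (k₀, z)⟩) then t else 0) := by
    intro j' i' k l
    simp only [ptA, basePt, hq, Sum.elim_inl]
    congr 1
    by_cases h : (j', (⟨i', (k, l)⟩ : Σ i : ι, α i × α i)) = (j, ⟨i, (k₀, z)⟩)
    · rw [if_pos h, if_pos, mul_one]
      rw [Prod.mk.injEq] at h
      rw [h.1, h.2]
    · rw [if_neg h, if_neg, mul_zero]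
      intro h'
      apply h
      rw [Prod.mk.injEq, Sum.inl.injEq] at h'
      rw [h'.1, h'.2]
  have key : ∀ j', ∑ u : (i : ι) → α i, Q₀ j' u * ∏ i', (if b i' (u i') = some j' then 0 else
        ptA (fun x => basePt Q₀ x + t * q x) j' i' (w i') (u i')) =
      (∑ u : (i : ι) → α i, Q₀ j' u * ∏ i', (if b i' (u i') = some j' then 0 else
        ptA (basePt Q₀ : PB α s → ℂ) j' i' (w i') (u i'))) +
      (if j' = j then t * (if w i = k₀ then Q₀ j (Function.update w i z) else 0) else 0) := by
    intro j'
    by_cases hj : j' = j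
    · subst hj
      rw [if_pos rfl]
      have h1 : ∀ u : (i : ι) → α i, Q₀ j' u * ∏ i', (if b i' (u i') = some j' then 0 else
          ptA (fun x => basePt Q₀ x + t * q x) j' i' (w i') (u i')) =
          Q₀ j' u * (∏ i', (if b i' (u i') = some j' then 0 else
            ptA (basePt Q₀ : PB α s → ℂ) j' i' (w i') (u i'))) +
          (if u = Function.update w i z then
            t * (if w i = k₀ then Q₀ j' (Function.update w i z) else 0) else 0) := by
        intro u
        by_cases h0 : Q₀ j' u = 0
        · rw [h0, zero_mul, zero_mul, zero_add]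
          split_ifs with h2 h3
          · rw [← h2, h0, mul_zero]
          · rw [mul_zero]
          · rfl
        · have hu := hQ₀ j' u h0
          have e1 : ∀ i', (if b i' (u i') = some j' then (0 : ℂ) else
              ptA (fun x => basePt Q₀ x + t * q x) j' i' (w i') (u i')) =
              (if w i' = u i' then 1 else 0) +
              (if (⟨i', (w i', u i')⟩ : Σ i : ι, α i × α i) = ⟨i, (k₀, z)⟩ then t else 0) := by
            intro i'
            rw [if_neg (hu i'), hentry]
            congr 1
            simp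
          have e2 : ∀ i', (if b i' (u i') = some j' then (0 : ℂ) else
              ptA (basePt Q₀ : PB α s → ℂ) j' i' (w i') (u i')) =
              (if w i' = u i' then 1 else 0) := by
            intro i'
            rw [if_neg (hu i')]
            rfl
          rw [Finset.prod_congr rfl fun i' _ => e1 i', Finset.prod_congr rfl fun i' _ => e2 i',
            ← Finset.mul_prod_erase Finset.univ _ (Finset.mem_univ i),
            ← Finset.mul_prod_erase Finset.univ (fun i' => if w i' = u i' then (1 : ℂ) else 0)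
              (Finset.mem_univ i)]
          have e3 : ∀ i' ∈ Finset.univ.erase i, (if w i' = u i' then (1 : ℂ) else 0) +
              (if (⟨i', (w i', u i')⟩ : Σ i : ι, α i × α i) = ⟨i, (k₀, z)⟩ then t else 0) =
              (if w i' = u i' then 1 else 0) := by
            intro i' hi'
            rw [if_neg (c := (⟨i', (w i', u i')⟩ : Σ i : ι, α i × α i) = ⟨i, (k₀, z)⟩), add_zero]
            intro h
            exact (Finset.ne_of_mem_erase hi') (congrArg Sigma.fst h)
          rw [Finset.prod_congr rfl e3, add_mul, mul_add]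
          congr 1
          have e4 : ((⟨i, (w i, u i)⟩ : Σ i : ι, α i × α i) = ⟨i, (k₀, z)⟩) ↔
              (w i = k₀ ∧ u i = z) := by
            constructor
            · intro h
              have := eq_of_heq (Sigma.mk.inj h).2
              rw [Prod.mk.injEq] at this
              exact this
            · rintro ⟨h1, h2⟩
              rw [h1, h2]
          by_cases h5 : w i = k₀ ∧ u i = z
          · rw [if_pos (e4.mpr h5)]
            by_cases h6 : u = Function.update w i z
            · rw [if_pos h6, if_pos h5.1, Finset.prod_eq_one, mul_one, h6, mul_comm]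
              intro i' hi'
              rw [h6, Function.update_of_ne (Finset.ne_of_mem_erase hi'), if_pos rfl]
            · rw [if_neg h6]
              have : ∃ i' ∈ Finset.univ.erase i, w i' ≠ u i' := by
                by_contra hcon
                push Not at hcon
                apply h6
                funext i'
                by_cases hi' : i' = i
                · subst hi'
                  rw [Function.update_self, h5.2]
                · rw [Function.update_of_ne hi']
                  exact (hcon i' (Finset.mem_erase.mpr ⟨hi', Finset.mem_univ _⟩)).symm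
              obtain ⟨i', hi', hne⟩ := this
              rw [Finset.prod_eq_zero hi' (if_neg hne), mul_zero, mul_zero]
          · rw [if_neg (fun h => h5 (e4.mp h)), zero_mul, mul_zero]
            split_ifs with h7 h8
            · exfalso
              apply h5
              refine ⟨h8, ?_⟩
              rw [h7, Function.update_self]
            · rw [mul_zero]
            · rfl
      rw [Finset.sum_congr rfl fun u _ => h1 u, Finset.sum_add_distrib, Finset.sum_ite_eq',
        if_pos (Finset.mem_univ _)]
    · rw [if_neg hj, add_zero]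
      refine Finset.sum_congr rfl fun u _ => ?_
      congr 1
      refine Finset.prod_congr rfl fun i' _ => ?_
      split_ifs
      · rfl
      · rw [hentry, if_neg (c := (j', _) = (j, _)), add_zero]
        · rfl
        · intro h
          exact hj (Prod.ext_iff.mp h).1
  rw [Finset.sum_congr rfl fun j' _ => key j', Finset.sum_add_distrib, Finset.sum_ite_eq',
    if_pos (Finset.mem_univ _)]

/-- The dominance criterion. -/
theorem containsOpen_of_dir {s : ℕ} {r : ι → ℕ} (b : (i : ι) → α i → Option (Fin s))
    (hb : ∀ i j, Fintype.card {l : α i // b i l ≠ some j} ≤ r i)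
    (hr : ∀ i, r i ≤ Fintype.card (α i)) (p : PB α s → ℂ)
    (hp : ∀ w : (i : ι) → α i, (Pi.single w (1 : ℂ) : Tens α) ∈ Dir b p) :
    ContainsOpen α {T | RankLE α r s T} := by
  classical
  have hdom : ∀ P : MvPolynomial ((i : ι) → α i) ℂ, aeval (Phi b) P = 0 → P = 0 := by
    apply dominant_of_differential (Phi b) p
    intro v
    obtain ⟨q, hq⟩ := hp v
    refine ⟨q, fun k => ?_⟩
    rw [hq k, Pi.single_apply]
  obtain ⟨f, hf0, hf⟩ := exists_open_in_image (Phi b) hdom
  refine ⟨f, hf0, fun T hne => ?_⟩
  obtain ⟨x, hx⟩ := hf T hne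
  have hTe : T = fun w => ∑ j, (fun w => ∑ u, ptQ x j u *
      ∏ i, (if b i (u i) = some j then 0 else ptA x j i (w i) (u i))) w := by
    funext w
    rw [← hx w, eval_Phi]
    rfl
  refine ⟨fun j w => ∑ u, ptQ x j u *
      ∏ i, (if b i (u i) = some j then 0 else ptA x j i (w i) (u i)), fun j => ?_, ?_⟩
  · exact inSub_of_param b j (fun i => hb i j) hr (ptA x j) (ptQ x j)
  · rw [hTe]
    funext w
    rw [Finset.sum_apply]

end Pool.Agent.H42.TR
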